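import Mathlib

/-!
# An uncountable space `X` with `Q_p(X, ℝ)` Frechet-Urysohn that is not a Lusin space
-/

set_option autoImplicit false

open Set Topology Filter

universe u v

namespace Pool.Agent.Results.MP_aa6101_gt.UltrafilterSpace

/-- `f : X → ℝ` is quasicontinuous. -/
def IsQuasicontinuous {X : Type u} [TopologicalSpace X] (f : X → ℝ) : Prop :=
  ∀ (x : X) (U : Set X) (V : Set ℝ), IsOpen U → x ∈ U → IsOpen V → f x ∈ V →
    ∃ W : Set X, IsOpen W ∧ W.Nonempty ∧ W ⊆ U ∧ f '' W ⊆ V

/-- `Q_p(X, ℝ)`: the set of quasicontinuous real functions on `X` with the subspace topology from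
the product `ℝ^X`. -/
def Qp (X : Type u) [TopologicalSpace X] : Type u := {f : X → ℝ // IsQuasicontinuous f}

instance (X : Type u) [TopologicalSpace X] : TopologicalSpace (Qp X) :=
  inferInstanceAs (TopologicalSpace {f : X → ℝ // IsQuasicontinuous f})

/-- `X` is a Lusin space in the sense of Kunen. -/
def IsLusinSpace (X : Type u) [TopologicalSpace X] : Prop :=
  T2Space X ∧ (∀ A : Set X, IsNowhereDense A → A.Countable) ∧ {x : X | IsOpen {x}}.Countable ∧
    ¬ Countable X

section construction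

/-- The index set. -/
abbrev I : Type := ℕ → Bool

/-- A countable set. -/
abbrev Q : Type := Σ n : ℕ, Set (Fin n → Bool)

open Classical in
/-- A countable dense set of points of `I → Bool`. -/
noncomputable def d (q : Q) : I → Bool := fun x => decide ((fun i : Fin q.1 => x i) ∈ q.2)

lemma exists_separating (F : Finset I) : ∃ n : ℕ, ∀ x ∈ F, ∀ y ∈ F,
    (∀ i : Fin n, x i = y i) → x = y := by
  classical
  have h : ∀ x y : I, ∃ k : ℕ, x ≠ y → x k ≠ y k := by
    intro x y
    by_cases hxy : x = y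
    · exact ⟨0, fun h => absurd hxy h⟩
    · obtain ⟨k, hk⟩ := Function.ne_iff.1 hxy
      exact ⟨k, fun _ => hk⟩
  choose k hk using h
  refine ⟨(F ×ˢ F).sup (fun p => k p.1 p.2) + 1, fun x hx y hy hxy => ?_⟩
  by_contra hne
  have h1 : k x y < (F ×ˢ F).sup (fun p => k p.1 p.2) + 1 :=
    Nat.lt_succ_of_le (Finset.le_sup (f := fun p : I × I => k p.1 p.2)
      (Finset.mk_mem_product hx hy))
  exact hk x y hne (hxy ⟨k x y, h1⟩)

lemma d_eq_true_iff (q : Q) (x : I) : d q x = true ↔ (fun i : Fin q.1 => x i) ∈ q.2 := by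
  simp [d]

lemma exists_d_eq (F : Finset I) (z : I → Bool) : ∃ q : Q, ∀ x ∈ F, d q x = z x := by
  obtain ⟨n, hn⟩ := exists_separating F
  refine ⟨⟨n, {s | ∃ y ∈ F, z y = true ∧ s = fun i : Fin n => y i}⟩, fun x hx => ?_⟩
  rw [Bool.eq_iff_iff, d_eq_true_iff]
  constructor
  · rintro ⟨y, hy, hy1, hy2⟩
    rw [hn x hx y hy fun i => congrFun hy2 i]
    exact hy1
  · exact fun hz => ⟨x, hx, hz, rfl⟩

/-- The basic open sets of `I → Bool`. -/
def cyl (F : Finset I) (z : I → Bool) : Set (I → Bool) := {w | ∀ x ∈ F, w x = z x}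

lemma isOpen_cyl (F : Finset I) (z : I → Bool) : IsOpen (cyl F z) := by
  have : cyl F z = ⋂ x ∈ F, (fun w : I → Bool => w x) ⁻¹' {z x} := by
    ext w; simp [cyl]
  rw [this]
  exact isOpen_biInter_finset fun x _ => (isOpen_discrete _).preimage (continuous_apply x)

lemma exists_cyl {V : Set (I → Bool)} (hV : IsOpen V) {z : I → Bool} (hz : z ∈ V) :
    ∃ F : Finset I, cyl F z ⊆ V := by
  obtain ⟨F, t, ht, hF⟩ := isOpen_pi_iff.1 hV z hz
  refine ⟨F, fun w hw => hF fun x hx => ?_⟩
  have h1 := (ht x hx).2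
  rwa [← hw x hx] at h1

lemma dense_range_d : Dense (range d) := by
  refine dense_iff_inter_open.2 fun U hU hne => ?_
  obtain ⟨z, hz⟩ := hne
  obtain ⟨F, hF⟩ := exists_cyl hU hz
  obtain ⟨q, hq⟩ := exists_d_eq F z
  exact ⟨d q, hF hq, q, rfl⟩

/-- The families of subsets of `Q` used in the construction. -/
def Fam : Set (Set (Set Q)) :=
  {m | (∀ F ∈ m, Dense (d '' F)) ∧ ∀ F ∈ m, ∀ G ∈ m, F ∩ G ∈ m}

lemma exists_maximal : ∃ m : Set (Set Q), univ ∈ m ∧ Maximal (· ∈ Fam) m := by
  have h1 : ∀ c ⊆ Fam, IsChain (· ⊆ ·) c → c.Nonempty → ∃ ub ∈ Fam, ∀ s ∈ c, s ⊆ ub := by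
    intro c hc hchain hne
    refine ⟨⋃₀ c, ⟨?_, ?_⟩, fun s hs => subset_sUnion_of_mem hs⟩
    · rintro F ⟨s, hs, hF⟩
      exact (hc hs).1 F hF
    · rintro F ⟨s, hs, hF⟩ G ⟨t, ht, hG⟩
      rcases hchain.total hs ht with h | h
      · exact ⟨t, ht, (hc ht).2 F (h hF) G hG⟩
      · exact ⟨s, hs, (hc hs).2 F hF G (h hG)⟩
  have h2 : ({univ} : Set (Set Q)) ∈ Fam := by
    refine ⟨?_, ?_⟩
    · rintro F rfl
      rw [image_univ]
      exact dense_range_d
    · rintro F rfl G rfl
      simp
  obtain ⟨m, hm1, hm2⟩ := zorn_subset_nonempty Fam h1 {univ} h2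
  exact ⟨m, hm1 rfl, hm2⟩

/-- The maximal family. -/
noncomputable def m : Set (Set Q) := exists_maximal.choose

lemma univ_mem_m : univ ∈ m := exists_maximal.choose_spec.1

lemma m_maximal : Maximal (· ∈ Fam) m := exists_maximal.choose_spec.2

lemma m_dense {F : Set Q} (hF : F ∈ m) : Dense (d '' F) := m_maximal.1.1 F hF

lemma m_inter {F G : Set Q} (hF : F ∈ m) (hG : G ∈ m) : F ∩ G ∈ m := m_maximal.1.2 F hF G hG

lemma mem_m_of_dense {G : Set Q} (hG : ∀ F ∈ m, Dense (d '' (F ∩ G))) : G ∈ m := by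
  have h1 : m ∪ {H | ∃ F ∈ m, H = F ∩ G} ∈ Fam := by
    refine ⟨?_, ?_⟩
    · rintro F (hF | ⟨F', hF', rfl⟩)
      · exact m_dense hF
      · exact hG F' hF'
    · rintro F (hF | ⟨F', hF', rfl⟩) H (hH | ⟨H', hH', rfl⟩)
      · exact Or.inl (m_inter hF hH)
      · exact Or.inr ⟨F ∩ H', m_inter hF hH', by rw [inter_assoc]⟩
      · exact Or.inr ⟨F' ∩ H, m_inter hF' hH, by rw [inter_right_comm]⟩
      · exact Or.inr ⟨F' ∩ H', m_inter hF' hH', by rw [← inter_inter_distrib_right]⟩
  exact m_maximal.2 h1 subset_union_left (Or.inr ⟨univ, univ_mem_m, by simp⟩)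

/-- The open set assigned to a subset of `Q`. -/
def phi (A : Set Q) : Set (I → Bool) := ⋃₀ {V | IsOpen V ∧ ∃ F ∈ m, F ∩ d ⁻¹' V ⊆ A}

lemma isOpen_phi (A : Set Q) : IsOpen (phi A) := isOpen_sUnion fun _ hV => hV.1

lemma phi_mono {A B : Set Q} (h : A ⊆ B) : phi A ⊆ phi B := by
  rintro z ⟨V, ⟨hV, F, hF, hFV⟩, hz⟩
  exact ⟨V, ⟨hV, F, hF, hFV.trans h⟩, hz⟩

lemma phi_univ : phi univ = univ :=
  eq_univ_of_forall fun _ => ⟨univ, ⟨isOpen_univ, univ, univ_mem_m, subset_univ _⟩, trivial⟩

lemma phi_inter (A B : Set Q) : phi A ∩ phi B ⊆ phi (A ∩ B) := by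
  rintro z ⟨⟨V, ⟨hV, F, hF, hFV⟩, hz⟩, ⟨W, ⟨hW, G, hG, hGW⟩, hz'⟩⟩
  refine ⟨V ∩ W, ⟨hV.inter hW, F ∩ G, m_inter hF hG, ?_⟩, hz, hz'⟩
  rintro q ⟨⟨hq1, hq2⟩, hq3, hq4⟩
  exact ⟨hFV ⟨hq1, hq3⟩, hGW ⟨hq2, hq4⟩⟩

lemma phi_subsingleton (A : Set Q) (hA : A.Subsingleton) : phi A = ∅ := by
  classical
  refine eq_empty_of_forall_notMem ?_
  rintro z ⟨V, ⟨hV, F, hF, hFV⟩, hz⟩
  obtain ⟨_, hq1, q, hq2, rfl⟩ := dense_iff_inter_open.1 (m_dense hF) V hV ⟨z, hz⟩
  obtain ⟨G, hG⟩ := exists_cyl hV hq1
  obtain ⟨x, hx⟩ := Infinite.exists_notMem_finset G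
  let w : I → Bool := Function.update (d q) x (!(d q x))
  have hw : cyl (insert x G) w ⊆ V := by
    intro v hv
    refine hG fun y hy => ?_
    have hyx : y ≠ x := fun h => hx (h ▸ hy)
    rw [hv y (Finset.mem_insert_of_mem hy)]
    simp only [w, Function.update_of_ne hyx]
  obtain ⟨_, hr1, r, hr2, rfl⟩ := dense_iff_inter_open.1 (m_dense hF) (cyl (insert x G) w)
    (isOpen_cyl _ _) ⟨w, fun _ _ => rfl⟩
  have h1 : q = r := hA (hFV ⟨hq2, hq1⟩) (hFV ⟨hr2, hw hr1⟩)
  have h2 := hr1 x (Finset.mem_insert_self x G)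
  rw [← h1] at h2
  simp only [w, Function.update_self] at h2
  cases h3 : d q x <;> simp [h3] at h2

lemma dense_phi_union (A : Set Q) : Dense (phi A ∪ phi Aᶜ) := by
  refine dense_iff_inter_open.2 fun W hW hne => ?_
  by_contra hcon
  rw [not_nonempty_iff_eq_empty, inter_union_distrib_left, union_empty_iff] at hcon
  obtain ⟨hc1, hc2⟩ := hcon
  have hG : A ∪ (d ⁻¹' W)ᶜ ∈ m := by
    refine mem_m_of_dense fun F hF => dense_iff_inter_open.2 fun V hV hVne => ?_
    by_cases hVW : (V ∩ W).Nonempty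
    · by_contra hcon
      obtain ⟨z, hz⟩ := hVW
      have : z ∈ phi Aᶜ := by
        refine ⟨V ∩ W, ⟨hV.inter hW, F, hF, ?_⟩, hz⟩
        rintro q ⟨hq1, hq2⟩ hqA
        exact hcon ⟨d q, hq2.1, q, ⟨hq1, Or.inl hqA⟩, rfl⟩
      have h2 : z ∈ W ∩ phi Aᶜ := ⟨hz.2, this⟩
      rw [hc2] at h2
      exact h2
    · obtain ⟨_, hq1, q, hq2, rfl⟩ := dense_iff_inter_open.1 (m_dense hF) V hV hVne
      exact ⟨d q, hq1, q, ⟨hq2, Or.inr fun h => hVW ⟨d q, hq1, h⟩⟩, rfl⟩
  obtain ⟨z, hz⟩ := hne
  have : z ∈ phi A := by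
    refine ⟨W, ⟨hW, _, hG, ?_⟩, hz⟩
    rintro q ⟨hq1 | hq1, hq2⟩
    · exact hq1
    · exact absurd hq2 hq1
  have h2 : z ∈ W ∩ phi A := ⟨hz, this⟩
  rw [hc1] at h2
  exact h2

instance : NeBot (residual (I → Bool)) :=
  forall_mem_nonempty_iff_neBot.1 fun _ hs => (dense_of_mem_residual hs).nonempty

/-- An ultrafilter on `I → Bool` containing all dense open sets. -/
noncomputable def U : Ultrafilter (I → Bool) := Ultrafilter.of (residual (I → Bool))

lemma mem_U_of_dense {V : Set (I → Bool)} (hV : IsOpen V) (hd : Dense V) : V ∈ U :=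
  (Ultrafilter.of_le (residual (I → Bool))) (residual_of_dense_open hV hd)

/-- The ultrafilter on `Q` attached to a homeomorphism of `I → Bool`. -/
noncomputable def ult (T : (I → Bool) ≃ₜ (I → Bool)) : Ultrafilter Q :=
  Ultrafilter.ofComplNotMemIff
    { sets := {A | T ⁻¹' phi A ∈ U}
      univ_sets := by
        simp only [mem_ofPred_eq, phi_univ, preimage_univ]
        exact univ_mem
      sets_of_superset := fun {A B} hA hAB => mem_of_superset hA (preimage_mono (phi_mono hAB))
      inter_sets := fun {A B} hA hB =>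
        mem_of_superset (inter_mem hA hB) (preimage_mono (phi_inter A B)) }
    (by
      intro A
      change T ⁻¹' phi Aᶜ ∉ U ↔ T ⁻¹' phi A ∈ U
      have h1 : T ⁻¹' phi A ∪ T ⁻¹' phi Aᶜ ∈ U :=
        mem_U_of_dense (((isOpen_phi A).preimage T.continuous).union
          ((isOpen_phi Aᶜ).preimage T.continuous))
          ((dense_phi_union A).preimage T.isOpenMap)
      constructor
      · intro h
        exact (Ultrafilter.union_mem_iff.1 h1).resolve_right h
      · intro h h'
        have h2 := inter_mem h h'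
        have h3 : T ⁻¹' phi A ∩ T ⁻¹' phi Aᶜ = ∅ := by
          rw [← preimage_inter]
          refine subset_empty_iff.1 ((preimage_mono (phi_inter A Aᶜ)).trans ?_)
          rw [inter_compl_self, phi_subsingleton ∅ subsingleton_empty, preimage_empty]
        rw [h3] at h2
        exact U.neBot.ne (empty_mem_iff_bot.1 h2))

lemma mem_ult (T : (I → Bool) ≃ₜ (I → Bool)) (A : Set Q) : A ∈ ult T ↔ T ⁻¹' phi A ∈ U := Iff.rfl

open Classical in
/-- Flipping the coordinate `x`. -/
noncomputable def flip (x : I) : (I → Bool) ≃ₜ (I → Bool) where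
  toFun z y := if y = x then !(z y) else z y
  invFun z y := if y = x then !(z y) else z y
  left_inv z := by
    ext y
    by_cases h : y = x <;> simp [h]
  right_inv z := by
    ext y
    by_cases h : y = x <;> simp [h]
  continuous_toFun := by
    refine continuous_pi fun y => ?_
    by_cases h : y = x
    · simp only [if_pos h]
      exact (continuous_of_discreteTopology (f := Bool.not)).comp (continuous_apply y)
    · simp only [if_neg h]
      exact continuous_apply y
  continuous_invFun := by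
    refine continuous_pi fun y => ?_
    by_cases h : y = x
    · simp only [if_pos h]
      exact (continuous_of_discreteTopology (f := Bool.not)).comp (continuous_apply y)
    · simp only [if_neg h]
      exact continuous_apply y

lemma flip_apply_self (x : I) (z : I → Bool) : flip x z x = !(z x) := by simp [flip]

lemma flip_apply_of_ne {x y : I} (h : y ≠ x) (z : I → Bool) : flip x z y = z y := by
  simp [flip, h]

/-- The ultrafilter `p`. -/
noncomputable def p : Ultrafilter Q := ult (Homeomorph.refl _)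

/-- The ultrafilters `p_x`. -/
noncomputable def px (x : I) : Ultrafilter Q := ult (flip x)

lemma countable_exceptions {A : Set Q} (hA : A ∈ p) : {x | A ∉ px x}.Countable := by
  classical
  have hA' : phi A ∈ U := (mem_ult _ _).1 hA
  -- an open dense subset of `phi A` depending on countably many coordinates
  have h1 : ∀ q : {q : Q // d q ∈ phi A}, ∃ F : Finset I, cyl F (d q.1) ⊆ phi A :=
    fun q => exists_cyl (isOpen_phi A) q.2
  choose F hF using h1
  let V : Set (I → Bool) := ⋃ q, cyl (F q) (d q.1)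
  have hVo : IsOpen V := isOpen_iUnion fun q => isOpen_cyl _ _
  have hVsub : V ⊆ phi A := iUnion_subset hF
  have hcl : phi A ⊆ closure V := by
    have h2 : phi A ⊆ closure (phi A ∩ range d) :=
      dense_range_d.open_subset_closure_inter (isOpen_phi A)
    refine h2.trans (closure_mono ?_)
    rintro _ ⟨hq, q, rfl⟩
    exact mem_iUnion.2 ⟨⟨q, hq⟩, fun _ _ => rfl⟩
  have hVU : V ∈ U := by
    have h3 : V ∪ (closure V)ᶜ ∈ U := by
      refine mem_U_of_dense (hVo.union isClosed_closure.isOpen_compl) ?_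
      refine dense_iff_inter_open.2 fun W hW hne => ?_
      by_contra hcon
      rw [not_nonempty_iff_eq_empty, inter_union_distrib_left, union_empty_iff] at hcon
      obtain ⟨z, hz⟩ := hne
      have h4 : z ∉ closure V := fun h => by
        obtain ⟨w, hw⟩ := mem_closure_iff.1 h W hW hz
        rw [hcon.1] at hw
        exact hw
      have h5 : z ∈ W ∩ (closure V)ᶜ := ⟨hz, h4⟩
      rw [hcon.2] at h5
      exact h5
    refine mem_of_superset (inter_mem h3 hA') ?_
    rintro z ⟨hz | hz, hz'⟩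
    · exact hz
    · exact absurd (hcl hz') hz
  refine (countable_iUnion fun q : {q : Q // d q ∈ phi A} =>
    (F q).countable_toSet).mono ?_
  intro x hx
  by_contra hcon
  apply hx
  refine (mem_ult _ _).2 (mem_of_superset hVU ?_)
  intro z hz
  obtain ⟨q, hq⟩ := mem_iUnion.1 hz
  refine hF q fun y hy => ?_
  have hyx : y ≠ x := fun h => hcon (mem_iUnion.2 ⟨q, h ▸ hy⟩)
  rw [flip_apply_of_ne hyx]
  exact hq y hy

lemma phi_coord (x : I) (b : Bool) : phi {q | d q x = b} = {z | z x = b} := by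
  have h1 : ∀ b : Bool, {z : I → Bool | z x = b} ⊆ phi {q | d q x = b} := by
    intro b z hz
    refine ⟨{z | z x = b}, ⟨?_, univ, univ_mem_m, ?_⟩, hz⟩
    · exact (isOpen_discrete {b}).preimage (continuous_apply (A := fun _ : I => Bool) x)
    · rintro q ⟨-, hq⟩
      exact hq
  refine Subset.antisymm ?_ (h1 b)
  intro z hz
  by_contra hcon
  have h2 : z x = !b := by
    have : z x ≠ b := hcon
    cases h : z x <;> cases b <;> simp_all
  have h3 := phi_inter _ _ ⟨hz, h1 (!b) h2⟩
  have h4 : {q | d q x = b} ∩ {q | d q x = !b} = (∅ : Set Q) := by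
    ext q
    simp only [mem_inter_iff, mem_ofPred_eq, mem_empty_iff_false, iff_false, not_and]
    intro h h'
    rw [h] at h'
    cases b <;> simp at h'
  rw [h4, phi_subsingleton ∅ subsingleton_empty] at h3
  exact h3

lemma px_injective : Function.Injective px := by
  intro x y hxy
  by_contra hne
  -- `{q | d q x = true}` distinguishes `p_x` from `p_y`
  have key : ∀ b : Bool, ({q | d q x = b} ∈ px x ↔ {q | d q x = b} ∈ px y) := fun b => by rw [hxy]
  have h1 : ∀ b : Bool, ({q | d q x = b} ∈ px x ↔ {z : I → Bool | z x = !b} ∈ U) := by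
    intro b
    rw [px, mem_ult, phi_coord]
    have : (flip x) ⁻¹' {z : I → Bool | z x = b} = {z : I → Bool | z x = !b} := by
      ext z
      simp only [mem_preimage, mem_ofPred_eq, flip_apply_self]
      cases z x <;> cases b <;> simp
    rw [this]
  have h2 : ∀ b : Bool, ({q | d q x = b} ∈ px y ↔ {z : I → Bool | z x = b} ∈ U) := by
    intro b
    rw [px, mem_ult, phi_coord]
    have : (flip y) ⁻¹' {z : I → Bool | z x = b} = {z : I → Bool | z x = b} := by
      ext z
      simp only [mem_preimage, mem_ofPred_eq, flip_apply_of_ne hne]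
    rw [this]
  have h3 : {z : I → Bool | z x = false} ∈ U ↔ {z : I → Bool | z x = true} ∈ U := by
    have := key true
    rw [h1 true, h2 true] at this
    simpa using this
  have h4 : {z : I → Bool | z x = true} = {z : I → Bool | z x = false}ᶜ := by
    ext z
    simp only [mem_ofPred_eq, mem_compl_iff]
    cases z x <;> simp
  rw [h4, Ultrafilter.compl_mem_iff_notMem] at h3
  tauto

lemma px_ne_pure (x : I) (q : Q) : px x ≠ pure q := by
  intro h
  have h1 : ({q} : Set Q) ∈ px x := by
    rw [h]; exact mem_singleton q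
  rw [px, mem_ult, phi_subsingleton _ subsingleton_singleton, preimage_empty] at h1
  exact U.neBot.ne (empty_mem_iff_bot.1 h1)

lemma p_ne_pure (q : Q) : p ≠ pure q := by
  intro h
  have h1 : ({q} : Set Q) ∈ p := by
    rw [h]; exact mem_singleton q
  rw [p, mem_ult, phi_subsingleton _ subsingleton_singleton, preimage_empty] at h1
  exact U.neBot.ne (empty_mem_iff_bot.1 h1)

end construction

/-- The space: the principal ultrafilters on `Q`, the ultrafilters `p_x` and the ultrafilter `p`, as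
a subspace of the Stone-Cech compactification `Ultrafilter Q` of the countable discrete `Q`. -/
def X : Type := {u : Ultrafilter Q // (∃ q, u = pure q) ∨ (∃ x, u = px x) ∨ u = p}

instance : TopologicalSpace X := inferInstanceAs (TopologicalSpace {_u : Ultrafilter Q // _})

instance : T35Space X := inferInstanceAs (T35Space {_u : Ultrafilter Q // _})

/-- The isolated points. -/
def iso (q : Q) : X := ⟨pure q, Or.inl ⟨q, rfl⟩⟩

/-- The points `p_x`. -/
noncomputable def ptx (x : I) : X := ⟨px x, Or.inr (Or.inl ⟨x, rfl⟩)⟩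

/-- The point `p`. -/
noncomputable def pt : X := ⟨p, Or.inr (Or.inr rfl)⟩

lemma isOpen_basic (A : Set Q) : IsOpen {u : X | A ∈ u.1} :=
  (ultrafilter_isOpen_basic A).preimage continuous_subtype_val

lemma exists_basic {U : Set X} (hU : IsOpen U) {u : X} (hu : u ∈ U) :
    ∃ A ∈ u.1, ∀ v : X, A ∈ v.1 → v ∈ U := by
  obtain ⟨V, hV, rfl⟩ := isOpen_induced_iff.1 hU
  obtain ⟨_, ⟨A, rfl⟩, hA, hAV⟩ := ultrafilterBasis_is_basis.exists_subset_of_mem_open
    (show u.1 ∈ V from hu) hV
  exact ⟨A, hA, fun v hv => hAV (show A ∈ v.1 from hv)⟩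

lemma exists_iso {U : Set X} (hU : IsOpen U) (hne : U.Nonempty) : ∃ q, iso q ∈ U := by
  obtain ⟨u, hu⟩ := hne
  obtain ⟨A, hA, hAU⟩ := exists_basic hU hu
  obtain ⟨q, hq⟩ := u.1.nonempty_of_mem hA
  exact ⟨q, hAU (iso q) (show A ∈ (pure q : Ultrafilter Q) from hq)⟩

lemma countable_notMem {A : Set Q} (hA : A ∈ p) : {v : X | A ∉ v.1}.Countable := by
  refine ((countable_range iso).union ((countable_exceptions hA).image ptx)).mono ?_
  rintro ⟨v, ⟨q, rfl⟩ | ⟨x, rfl⟩ | rfl⟩ hv
  · exact Or.inl ⟨q, rfl⟩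
  · exact Or.inr ⟨x, hv, rfl⟩
  · exact absurd hA hv

lemma mem_of_quasicontinuous {f : X → ℝ} (hf : IsQuasicontinuous f) (u : X) {V : Set ℝ}
    (hV : IsOpen V) (hu : f u ∈ V) : {q | f (iso q) ∈ V} ∈ u.1 := by
  by_contra hcon
  have h1 : {q | f (iso q) ∈ V}ᶜ ∈ u.1 := Ultrafilter.compl_mem_iff_notMem.2 hcon
  obtain ⟨W, hW, hne, hWU, hWV⟩ := hf u _ V (isOpen_basic _) h1 hV hu
  obtain ⟨q, hq⟩ := exists_iso hW hne
  have h2 : {q | f (iso q) ∈ V}ᶜ ∈ (pure q : Ultrafilter Q) := hWU hq
  exact h2 (hWV ⟨iso q, hq, rfl⟩)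

lemma continuous_of_quasicontinuous {f : X → ℝ} (hf : IsQuasicontinuous f) : Continuous f := by
  refine continuous_iff_continuousAt.2 fun u => ?_
  refine Metric.tendsto_nhds.2 fun ε hε => ?_
  have h1 := mem_of_quasicontinuous hf u (V := Metric.ball (f u) (ε / 2)) Metric.isOpen_ball
    (Metric.mem_ball_self (half_pos hε))
  filter_upwards [(isOpen_basic _).mem_nhds h1] with v hv
  by_contra hcon
  have h2 := mem_of_quasicontinuous hf v (V := {r | ε / 2 < dist r (f u)})
    (isOpen_lt continuous_const (continuous_id.dist continuous_const))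
    (show ε / 2 < dist (f v) (f u) by linarith [not_lt.1 hcon])
  obtain ⟨q, hq1, hq2⟩ := v.1.nonempty_of_mem (inter_mem hv h2)
  have h3 : dist (f (iso q)) (f u) < ε / 2 := hq1
  have h4 : ε / 2 < dist (f (iso q)) (f u) := hq2
  exact lt_asymm h3 h4

lemma countable_ne {f : X → ℝ} (hf : IsQuasicontinuous f) : {v | f v ≠ f pt}.Countable := by
  have hc := continuous_of_quasicontinuous hf
  have h1 : ∀ n : ℕ, ∃ A ∈ p, ∀ v : X, A ∈ v.1 → dist (f v) (f pt) < 1 / ((n : ℝ) + 1) := by
    intro n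
    have h2 : IsOpen (f ⁻¹' Metric.ball (f pt) (1 / ((n : ℝ) + 1))) :=
      Metric.isOpen_ball.preimage hc
    exact exists_basic (u := pt) h2 (Metric.mem_ball_self (by positivity))
  choose A hA1 hA2 using h1
  refine (countable_iUnion fun n => countable_notMem (hA1 n)).mono ?_
  intro v hv
  obtain ⟨n, hn⟩ := exists_nat_one_div_lt (dist_pos.2 hv)
  refine mem_iUnion.2 ⟨n, fun h => ?_⟩
  exact lt_asymm hn (hA2 n v h)

theorem frechetUrysohn : FrechetUrysohnSpace (Qp X) := by
  classical
  refine ⟨fun 𝒜 g hg => ?_⟩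
  -- approximations on finite sets
  have happrox : ∀ (F : Finset X) (k : ℕ), ∃ f ∈ 𝒜, ∀ x ∈ F,
      dist (f.1 x) (g.1 x) < 1 / ((k : ℝ) + 1) := by
    intro F k
    let O : Set (Qp X) := {f | ∀ x ∈ F, dist (f.1 x) (g.1 x) < 1 / ((k : ℝ) + 1)}
    have hO : IsOpen O := by
      have : O = ⋂ x ∈ F, {f : Qp X | dist (f.1 x) (g.1 x) < 1 / ((k : ℝ) + 1)} := by
        ext f; simp [O]
      rw [this]
      refine isOpen_biInter_finset fun x _ => ?_
      have hx : Continuous fun f : Qp X => f.1 x := (continuous_apply x).comp continuous_subtype_val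
      exact isOpen_lt (hx.dist continuous_const) continuous_const
    have hgO : g ∈ O := fun x _ => by
      rw [dist_self]; positivity
    obtain ⟨f, hf1, hf2⟩ := mem_closure_iff.1 hg O hO hgO
    exact ⟨f, hf2, hf1⟩
  choose f hf1 hf2 using happrox
  -- closing off
  let N : Qp X → Set X := fun h => {v | h.1 v ≠ h.1 pt}
  have hN : ∀ h, (N h).Countable := fun h => countable_ne h.2
  let S : Set X → Set X := fun E => E ∪ ⋃ (F : Finset E) (k : ℕ),
    N (f (F.map ⟨Subtype.val, Subtype.val_injective⟩) k)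
  let D : ℕ → Set X := fun n => Nat.rec (insert pt (N g)) (fun _ E => S E) n
  have hD0 : D 0 = insert pt (N g) := rfl
  have hDs : ∀ n, D (n + 1) = S (D n) := fun n => rfl
  have hDc : ∀ n, (D n).Countable := by
    intro n
    induction n with
    | zero => rw [hD0]; exact (hN g).insert _
    | succ n ih =>
      rw [hDs]
      have hS : ∀ E : Set X, E.Countable → (S E).Countable := by
        intro E hE
        have : Countable E := hE
        exact hE.union (countable_iUnion fun F => countable_iUnion fun k => hN _)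
      exact hS _ ih
  have hmono : Monotone D := monotone_nat_of_le_succ fun n => by
    rw [hDs]; exact subset_union_left
  let E : Set X := ⋃ n, D n
  have hEc : E.Countable := countable_iUnion hDc
  have hpt : pt ∈ E := mem_iUnion.2 ⟨0, by rw [hD0]; exact mem_insert _ _⟩
  have hNg : N g ⊆ E := fun v hv => mem_iUnion.2 ⟨0, by rw [hD0]; exact mem_insert_of_mem _ hv⟩
  have hNf : ∀ (F : Finset X) (k : ℕ), (F : Set X) ⊆ E → N (f F k) ⊆ E := by
    intro F k hF v hv
    have h1 : ∃ n, (F : Set X) ⊆ D n := by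
      have h2 : ∀ x ∈ F, ∀ᶠ n in atTop, x ∈ D n := by
        intro x hx
        obtain ⟨n, hn⟩ := mem_iUnion.1 (hF hx)
        filter_upwards [eventually_ge_atTop n] with j hj using hmono hj hn
      obtain ⟨n, hn⟩ := ((eventually_all_finset F).2 h2).exists
      exact ⟨n, hn⟩
    obtain ⟨n, hn⟩ := h1
    have hS : ∀ E : Set X, (F : Set X) ⊆ E → N (f F k) ⊆ S E := by
      intro E hE
      have h1 : ∃ F' : Finset E, F'.map ⟨Subtype.val, Subtype.val_injective⟩ = F := by
        refine ⟨F.attach.map ⟨fun x => ⟨x.1, hE x.2⟩, fun x y h =>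
          Subtype.ext (Subtype.mk.inj h)⟩, ?_⟩
        ext x
        constructor
        · intro hx
          obtain ⟨y, hy, rfl⟩ := Finset.mem_map.1 hx
          obtain ⟨z, -, rfl⟩ := Finset.mem_map.1 hy
          exact z.2
        · intro hx
          exact Finset.mem_map.2 ⟨_, Finset.mem_map.2 ⟨⟨x, hx⟩, Finset.mem_attach _ _, rfl⟩, rfl⟩
      obtain ⟨F', hF'⟩ := h1
      intro v hv
      refine Or.inr (mem_iUnion.2 ⟨F', mem_iUnion.2 ⟨k, ?_⟩⟩)
      rw [hF']
      exact hv
    exact mem_iUnion.2 ⟨n + 1, hS (D n) hn hv⟩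
  obtain ⟨e, he⟩ := hEc.exists_eq_range ⟨pt, hpt⟩
  have heE : ∀ n, e n ∈ E := fun n => by rw [he]; exact mem_range_self n
  let F : ℕ → Finset X := fun n => (Finset.range (n + 1)).image e
  have hFE : ∀ n, (F n : Set X) ⊆ E := by
    intro n x hx
    obtain ⟨i, -, rfl⟩ := Finset.mem_image.1 hx
    exact heE i
  let h : ℕ → Qp X := fun n => f (F n) n
  have hlimE : ∀ x ∈ E, Tendsto (fun n => (h n).1 x) atTop (𝓝 (g.1 x)) := by
    intro x hx
    rw [he] at hx
    obtain ⟨i, rfl⟩ := hx
    rw [tendsto_iff_dist_tendsto_zero]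
    refine squeeze_zero' (Eventually.of_forall fun n => dist_nonneg) ?_
      tendsto_one_div_add_atTop_nhds_zero_nat
    filter_upwards [eventually_ge_atTop i] with n hn
    exact (hf2 (F n) n (e i)
      (Finset.mem_image.2 ⟨i, Finset.mem_range.2 (Nat.lt_succ_of_le hn), rfl⟩)).le
  refine ⟨h, fun n => hf1 _ _, ?_⟩
  refine tendsto_subtype_rng.2 (tendsto_pi_nhds.2 fun x => ?_)
  by_cases hx : x ∈ E
  · exact hlimE x hx
  · have h1 : g.1 x = g.1 pt := by
      by_contra hcon
      exact hx (hNg hcon)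
    have h2 : ∀ n, (h n).1 x = (h n).1 pt := by
      intro n
      by_contra hcon
      exact hx (hNf _ _ (hFE n) hcon)
    simp only [h1, h2]
    exact hlimE pt hpt

lemma not_countable_I : ¬ Countable I := by
  intro h1
  have h2 : Cardinal.mk I ≤ Cardinal.aleph0 := Cardinal.mk_le_aleph0_iff.2 h1
  have h3 := Cardinal.cantor Cardinal.aleph0
  have h4 : Cardinal.mk I = 2 ^ Cardinal.aleph0 := by
    rw [← Cardinal.mk_bool, ← Cardinal.mk_nat, Cardinal.power_def]
  rw [h4] at h2
  exact absurd h2 (not_le.2 h3)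

theorem not_countable : ¬ Countable X := fun _ => not_countable_I <|
  Function.Injective.countable (f := ptx) fun _ _ hxy => px_injective (congrArg Subtype.val hxy)

theorem isNowhereDense_range : IsNowhereDense (range ptx) ∧ ¬ (range ptx).Countable := by
  constructor
  · rw [IsNowhereDense]
    by_contra hcon
    obtain ⟨q, hq⟩ := exists_iso isOpen_interior (nonempty_iff_ne_empty.2 hcon)
    obtain ⟨_, hy1, x, rfl⟩ := mem_closure_iff.1 (interior_subset hq) _ (isOpen_basic {q})
      (show ({q} : Set Q) ∈ (pure q : Ultrafilter Q) from rfl)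
    have h1 : ({q} : Set Q) ∈ px x := hy1
    rw [px, mem_ult, phi_subsingleton _ subsingleton_singleton, preimage_empty] at h1
    exact U.neBot.ne (empty_mem_iff_bot.1 h1)
  · intro h
    have h1 : Countable (range ptx) := h
    have h2 : Function.Injective ptx := fun x y hxy => px_injective (congrArg Subtype.val hxy)
    have h3 : Countable I := by
      have := (Equiv.ofInjective ptx h2).injective.countable
      exact this
    exact not_countable_I h3

/-- There is an uncountable Tychonoff (in particular Hausdorff) space `X` such that `Q_p(X, ℝ)` is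
Frechet-Urysohn, but `X` has an uncountable nowhere dense subset, so that `X` is not a Lusin
space. -/
theorem result : ∃ (X : Type) (_ : TopologicalSpace X), T35Space X ∧ ¬ Countable X ∧
    FrechetUrysohnSpace (Qp X) ∧ (∃ A : Set X, IsNowhereDense A ∧ ¬ A.Countable) ∧
    ¬ IsLusinSpace X :=
  ⟨X, inferInstance, inferInstance, not_countable, frechetUrysohn,
    ⟨_, isNowhereDense_range⟩, fun h => isNowhereDense_range.2 (h.2.1 _ isNowhereDense_range.1)⟩

end Pool.Agent.Results.MP_aa6101_gt.UltrafilterSpace
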